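import Pool.Agent.W770.PC.SphStms

set_option autoImplicit false
set_option linter.all false

open MeasureTheory Set Filter Topology
open scoped RealInnerProductSpace

namespace Pool.Agent.W918.PC

open Pool.Agent.W770.PC
open Pool.Agent.H789R2.FR (E sg)

/-- bump function over the cap -/
noncomputable def c0 (x : E 3) : ℝ :=
  Real.smoothTransition (1 / 64 - x 0 ^ 2) * Real.smoothTransition (1 / 64 - x 1 ^ 2) *
    Real.smoothTransition (x 2)

theorem c0_smooth : ContDiff ℝ (⊤ : ℕ∞) c0 := by
  unfold c0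
  have h : ∀ i : Fin 3, ContDiff ℝ (⊤ : ℕ∞) fun x : E 3 => x i := fun i => by fun_prop
  exact ((Real.smoothTransition.contDiff.comp (contDiff_const.sub ((h 0).pow 2))).mul
    (Real.smoothTransition.contDiff.comp (contDiff_const.sub ((h 1).pow 2)))).mul
    (Real.smoothTransition.contDiff.comp (h 2))

theorem c0_nonneg (x : E 3) : 0 ≤ c0 x := by
  unfold c0
  exact mul_nonneg (mul_nonneg (Real.smoothTransition.nonneg _) (Real.smoothTransition.nonneg _))
    (Real.smoothTransition.nonneg _)

theorem c0_supp (x : E 3) (h : c0 x ≠ 0) : |x 0| ≤ 1 / 8 ∧ |x 1| ≤ 1 / 8 ∧ 0 < x 2 := by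
  unfold c0 at h
  have h2 := right_ne_zero_of_mul h
  have h01 := left_ne_zero_of_mul h
  have h0 := left_ne_zero_of_mul h01
  have h1 := right_ne_zero_of_mul h01
  have pos : ∀ t : ℝ, Real.smoothTransition t ≠ 0 → 0 < t := by
    intro t ht
    by_contra hn
    exact ht (Real.smoothTransition.zero_of_nonpos (not_lt.1 hn))
  refine ⟨?_, ?_, pos _ h2⟩
  · have := pos _ h0
    exact abs_le_of_sq_le_sq (by norm_num; linarith) (by norm_num)
  · have := pos _ h1
    exact abs_le_of_sq_le_sq (by norm_num; linarith) (by norm_num)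

/-- the north pole -/
noncomputable def np : E 3 := EuclideanSpace.single 2 1

theorem np_norm : ‖np‖ = 1 := by simp [np]

theorem c0_np : 0 < c0 np := by
  unfold c0 np
  have e0 : (EuclideanSpace.single (2 : Fin 3) (1 : ℝ) : E 3) 0 = 0 := by simp
  have e1 : (EuclideanSpace.single (2 : Fin 3) (1 : ℝ) : E 3) 1 = 0 := by simp
  have e2 : (EuclideanSpace.single (2 : Fin 3) (1 : ℝ) : E 3) 2 = 1 := by simp
  rw [e0, e1, e2]
  refine mul_pos (mul_pos ?_ ?_) ?_ <;>
  · apply Real.smoothTransition.pos_of_pos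
    norm_num

/-- the rotations -/
noncomputable def rr (x : E 3) : E 3 ≃ₗᵢ[ℝ] E 3 := (ℝ ∙ (np - x))ᗮ.reflection

theorem rr_np (x : E 3) (hx : ‖x‖ = 1) : rr x np = x := by
  unfold rr
  exact Submodule.reflection_sub (by rw [np_norm, hx])

theorem exists_eta (m : ℝ) (hm : 0 < m) : ∃ η : ℝ → ℝ, ContDiff ℝ (⊤ : ℕ∞) η ∧ ∀ r, m ≤ r → r * η r = 1 := by
  set κ : ℝ → ℝ := fun r => Real.smoothTransition (2 * r / m - 1) * r +
    (1 - Real.smoothTransition (2 * r / m - 1)) with hκ
  have hsm : ContDiff ℝ (⊤ : ℕ∞) fun r : ℝ => Real.smoothTransition (2 * r / m - 1) :=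
    Real.smoothTransition.contDiff.comp (by fun_prop)
  have hκs : ContDiff ℝ (⊤ : ℕ∞) κ := (hsm.mul contDiff_id).add (contDiff_const.sub hsm)
  have hκ0 : ∀ r, 0 < κ r := by
    intro r
    rcases le_or_gt r (m / 2) with h | h
    · have h1 : 2 * r / m - 1 ≤ 0 := by
        rw [sub_nonpos, div_le_one hm]
        linarith
      simp only [hκ]
      rw [Real.smoothTransition.zero_of_nonpos h1]
      norm_num
    · have hr : 0 < r := by linarith
      have h1 : 0 ≤ Real.smoothTransition (2 * r / m - 1) := Real.smoothTransition.nonneg _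
      have h2 : Real.smoothTransition (2 * r / m - 1) ≤ 1 := Real.smoothTransition.le_one _
      have h3 : 0 < Real.smoothTransition (2 * r / m - 1) := by
        apply Real.smoothTransition.pos_of_pos
        rw [sub_pos, lt_div_iff₀ hm]
        linarith
      have h4 : 0 < Real.smoothTransition (2 * r / m - 1) * r := mul_pos h3 hr
      simp only [hκ]
      linarith
  refine ⟨fun r => (κ r)⁻¹, hκs.inv (fun r => (hκ0 r).ne'), ?_⟩
  intro r hr
  have h1 : 1 ≤ 2 * r / m - 1 := by
    have : 2 ≤ 2 * r / m := by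
      rw [le_div_iff₀ hm]
      linarith
    linarith
  have h2 : κ r = r := by
    simp only [hκ]
    rw [Real.smoothTransition.one_of_one_le h1]
    ring
  show r * (κ r)⁻¹ = 1
  rw [h2]
  exact mul_inv_cancel₀ (by linarith)

theorem cover : S_cover := by
  have hS : IsCompact (Metric.sphere (0 : E 3) 1) := isCompact_sphere _ _
  obtain ⟨t, ht, hcov⟩ := hS.elim_nhds_subcover (fun x => {y | 0 < c0 ((rr x).symm y)}) (by
    intro x hx
    have hx1 : ‖x‖ = 1 := by simpa using hx
    apply IsOpen.mem_nhds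
    · exact isOpen_lt continuous_const (c0_smooth.continuous.comp (rr x).symm.continuous)
    · show 0 < c0 ((rr x).symm x)
      have : (rr x).symm x = np := by
        rw [LinearIsometryEquiv.symm_apply_eq]
        exact (rr_np x hx1).symm
      rw [this]
      exact c0_np)
  -- the sum
  set W : E 3 → ℝ := fun y => ∑ x ∈ t, c0 ((rr x).symm y) with hW
  have hWs : ContDiff ℝ (⊤ : ℕ∞) W := by
    apply ContDiff.sum
    intro x _
    exact c0_smooth.comp (rr x).symm.contDiff
  have hWp : ∀ y ∈ Metric.sphere (0 : E 3) 1, 0 < W y := by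
    intro y hy
    have := hcov hy
    simp only [mem_iUnion] at this
    obtain ⟨x, hx, hxy⟩ := this
    exact Finset.sum_pos' (fun z _ => c0_nonneg _) ⟨x, hx, hxy⟩
  obtain ⟨y0, hy0, hmin⟩ := hS.exists_isMinOn ⟨np, by simp [np_norm]⟩ hWs.continuous.continuousOn
  obtain ⟨η, hη, hη1⟩ := exists_eta (W y0) (hWp y0 hy0)
  refine ⟨t.card, fun i => rr (t.equivFin.symm i).1,
    fun i x => c0 x * η (W (rr (t.equivFin.symm i).1 x)), ?_, ?_⟩
  · intro i
    refine ⟨c0_smooth.mul (hη.comp (hWs.comp (rr _).contDiff)), ?_⟩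
    intro x hx
    exact c0_supp x (left_ne_zero_of_mul hx)
  · intro y hy
    have hy' : y ∈ Metric.sphere (0 : E 3) 1 := by simpa using hy
    have h1 : ∀ i : Fin t.card, c0 ((rr (t.equivFin.symm i).1).symm y) *
        η (W (rr (t.equivFin.symm i).1 ((rr (t.equivFin.symm i).1).symm y))) =
        c0 ((rr (t.equivFin.symm i).1).symm y) * η (W y) := by
      intro i
      rw [LinearIsometryEquiv.apply_symm_apply]
    show ∑ i : Fin t.card, c0 ((rr (t.equivFin.symm i).1).symm y) *
        η (W (rr (t.equivFin.symm i).1 ((rr (t.equivFin.symm i).1).symm y))) = 1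
    rw [Finset.sum_congr rfl (fun i _ => h1 i), ← Finset.sum_mul]
    have h2 : ∑ i : Fin t.card, c0 ((rr (t.equivFin.symm i).1).symm y) = W y := by
      rw [Equiv.sum_comp t.equivFin.symm (fun x : t => c0 ((rr x.1).symm y))]
      exact Finset.sum_coe_sort t (fun x => c0 ((rr x).symm y))
    rw [h2]
    exact hη1 _ (hmin hy')

end Pool.Agent.W918.PC

theorem Pool.Agent.W770.PC.cover_thm : Pool.Agent.W770.PC.S_cover := Pool.Agent.W918.PC.cover
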